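import Mathlib
import Pool.Agent.X200.Cm.SafeMain
import Pool.Agent.X200.Cm.OpenMain

/-!
A condition over five colours such that it and its complement have finite general memory while its
chromatic memory is infinite.
The definitions (arenas, strategies, memory structures, `GenMem`, `ChrMem`, `IsSafety`) are in
`Pool/Agent/X200/Cm/Defs.lean`.
-/

set_option autoImplicit false

namespace Pool.Agent.Results.MP_4814b8_lc.ComplementFiniteMemory

open Pool.Agent.X200.Cm

/-- There is a (safety) condition `W` over a set of five colours such that the general memory of `W`
is at most four, the general memory of the complement of `W` is at most three, and the chromatic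
memory of `W` is infinite. -/
theorem result : ∃ (C : Type) (W : Set (ℕ → C)),
    Nat.card C = 5 ∧ GenMem W ≤ 4 ∧ GenMem Wᶜ ≤ 3 ∧ ChrMem W = ⊤ ∧ IsSafety W :=
  ⟨Col, Ws, col_card, safe_main.2.2.1, genMem_compl, chrMem_Ws, isSafety_Ws⟩

end Pool.Agent.Results.MP_4814b8_lc.ComplementFiniteMemory
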